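import Pool.Agent.V11294.Th.Fin

/-!
# MP_3ef01f_nt: period length of the theta Taylor coefficients modulo `p^e`, `p ≡ 1 (mod 4)`
-/

set_option autoImplicit false

open Finset PowerSeries

namespace Pool.Agent.Results.MP_3ef01f_nt.ThetaPeriod

/-- `Π₁(N) = ∏_{j=1}^N (4j-1)²` -/
def Pi1 (N : ℕ) : ℤ := ∏ j ∈ Finset.Icc 1 N, (4 * (j : ℤ) - 1) ^ 2

/-- `Π₃(N) = ∏_{j=1}^N (4j-3)²` -/
def Pi3 (N : ℕ) : ℤ := ∏ j ∈ Finset.Icc 1 N, (4 * (j : ℤ) - 3) ^ 2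

/-- `u(0) = 1` and `u(n) = Π₁(n) - Σ_{m=0}^{n-1} C(2n+1, 2m+1) Π₃(n-m) u(m)` for `n ≥ 1` -/
def u (n : ℕ) : ℤ :=
  if n = 0 then 1 else
    Pi1 n - ∑ m ∈ (Finset.range n).attach, ((2 * n + 1).choose (2 * m.1 + 1) : ℤ) * Pi3 (n - m.1) * u m.1
termination_by n
decreasing_by exact Finset.mem_range.1 m.2

/-- `v(0) = 1` and `v(n) = 2^{n-1} Π₃(n) - ½ Σ_{m=1}^{n-1} C(2n, 2m) v(m) v(n-m)` for `n ≥ 1` -/
noncomputable def v (n : ℕ) : ℚ :=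
  if n = 0 then 1 else
    2 ^ (n - 1) * (Pi3 n : ℚ)
      - 1 / 2 * ∑ m ∈ (Finset.Ico 1 n).attach, ((2 * n).choose (2 * m.1) : ℚ) * v m.1 * v (n - m.1)
termination_by n
decreasing_by
  · exact (Finset.mem_Ico.1 m.2).2
  · have := Finset.mem_Ico.1 m.2
    omega

/-- `U(t) = Σ_{n ≥ 0} u(n) t^{2n+1} / (2n+1)!` -/
noncomputable def U : ℚ⟦X⟧ :=
  PowerSeries.mk fun j => if Odd j then (u ((j - 1) / 2) : ℚ) / (j.factorial : ℚ) else 0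

/-- `r(n,k) = 2^{n-k} (2n)!/(2k)! [t^{2n}] U(t)^{2k}` -/
noncomputable def r (n k : ℕ) : ℚ :=
  (2 : ℚ) ^ ((n : ℤ) - (k : ℤ)) * (((2 * n).factorial : ℚ) / ((2 * k).factorial : ℚ))
    * PowerSeries.coeff (2 * n) (U ^ (2 * k))

/-- `d(0) = 1` and `d(n) = v(n) - Σ_{k=0}^{n-1} r(n,k) d(k)` for `n ≥ 1` -/
noncomputable def d (n : ℕ) : ℚ :=
  if n = 0 then 1 else v n - ∑ k ∈ (Finset.range n).attach, r n k.1 * d k.1
termination_by n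
decreasing_by exact Finset.mem_range.1 k.2

theorem u_rec (n : ℕ) : u n = V11294.Th.Pi1 n
    - ∑ m ∈ range n, ((2 * n + 1).choose (2 * m + 1) : ℤ) * V11294.Th.Pi3 (n - m) * u m := by
  rw [u]
  rcases Nat.eq_zero_or_pos n with h | h
  · subst h; simp [V11294.Th.Pi1]
  · rw [if_neg (by omega)]
    rw [Finset.sum_attach (range n) (fun m => ((2 * n + 1).choose (2 * m + 1) : ℤ) * Pi3 (n - m) * u m)]
    rfl

theorem v_zero : v 0 = 1 := by rw [v]; simp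

theorem v_rec (n : ℕ) (h : 1 ≤ n) : v n = 2 ^ (n - 1) * (V11294.Th.Pi3 n : ℚ)
    - 1 / 2 * ∑ m ∈ Ico 1 n, ((2 * n).choose (2 * m) : ℚ) * v m * v (n - m) := by
  rw [v, if_neg (by omega)]
  rw [Finset.sum_attach (Ico 1 n) (fun m => ((2 * n).choose (2 * m) : ℚ) * v m * v (n - m))]
  rfl

theorem U_eq : U = V11294.Th.UU u := by
  ext j
  simp only [U, V11294.Th.UU, V11294.Th.odS, coeff_mk]
  by_cases h : Odd j
  · rw [if_pos h, if_pos h]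
    obtain ⟨k, hk⟩ := h
    rw [show 2 * ((j - 1) / 2) + 1 = j by omega]
  · rw [if_neg h, if_neg h]

theorem r_eq (n k : ℕ) : r n k = V11294.Th.rr u n k := by
  rw [r, V11294.Th.rr, U_eq]

theorem d_zero : d 0 = 1 := by rw [d]; simp

theorem d_rec (n : ℕ) (h : 1 ≤ n) : d n = v n - ∑ k ∈ range n, V11294.Th.rr u n k * d k := by
  rw [d, if_neg (by omega)]
  rw [Finset.sum_attach (range n) (fun k => r n k * d k)]
  simp only [r_eq]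

/-- The numbers `d(n)` are integers, and for every prime `p ≡ 1 (mod 4)` and every `e ≥ 1` they are periodic
modulo `p^e` with period length `p^{e-1}(p-1)²/8` (an integer), from index `n ≥ e/2` on. -/
theorem result : ∃ dZ : ℕ → ℤ, (∀ n, (dZ n : ℚ) = d n) ∧
    ∀ p : ℕ, p.Prime → p % 4 = 1 → ∀ e : ℕ, 1 ≤ e →
      8 ∣ p ^ (e - 1) * (p - 1) ^ 2 ∧
      ∀ n : ℕ, e ≤ 2 * n → dZ (n + p ^ (e - 1) * (p - 1) ^ 2 / 8) ≡ dZ n [ZMOD (p : ℤ) ^ e] := by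
  have hint := V11294.Th.d_int u v d v_zero v_rec d_zero d_rec
  choose dZ hdZ using hint
  refine ⟨dZ, fun n => (hdZ n).symm, ?_⟩
  intro p hp hp4 e he
  have : Fact p.Prime := ⟨hp⟩
  obtain ⟨m, hm⟩ : ∃ m, p = 4 * m + 1 := ⟨p / 4, by omega⟩
  obtain ⟨k, rfl⟩ : ∃ k, e = k + 1 := ⟨e - 1, by omega⟩
  have e1 : p ^ (k + 1 - 1) * (p - 1) ^ 2 = 8 * (2 * m ^ 2 * p ^ k) := by
    rw [Nat.add_sub_cancel, show p - 1 = 4 * m by omega]; ring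
  refine ⟨⟨_, e1⟩, ?_⟩
  intro n hn
  rw [e1, Nat.mul_div_cancel_left _ (by norm_num)]
  have h1 := V11294.Th.main u u_rec v d v_zero v_rec d_zero d_rec dZ (fun n => (hdZ n).symm) p m hm k n hn
  exact (Int.modEq_iff_dvd.2 h1).symm

end Pool.Agent.Results.MP_3ef01f_nt.ThetaPeriod
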